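import Mathlib
import Pool.Agent.H383Kneser.Main

/-!
# MP_3036ab_co: minimum maximal intersecting families of `k`-subsets of an `n`-set

`iMin n k` is the least size of a maximal independent set of the Kneser graph `K(n,k)`.
The logarithm of `i(n,k)` is determined up to a factor `O(log (n/k))` in the whole range
`2k ≤ n ≤ k^{5/4}`, and there are explicit exponential upper bounds in the range up to `n ~ k^2`.
-/

namespace Pool.Agent.Results.MP_3036ab_co.LogOrder

open Pool.Agent.H383Kneser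

theorem result :
    -- the least size is attained
    (∀ n k : ℕ, 1 ≤ k → 2 * k ≤ n → ∃ F, IsMaxIndep n k F ∧ F.card = iMin n k) ∧
    -- lower bounds, for all n ≥ 2k
    (∀ n k : ℕ, 1 ≤ k → 2 * k ≤ n → n.choose k ≤ iMin n k * ((n - k).choose k + 1)) ∧
    (∀ n k : ℕ, 1 ≤ k → 2 * k ≤ n → (k : ℝ) ^ 2 / n - Real.log 2 ≤ Real.log (iMin n k)) ∧
    -- matching upper bound up to the factor 20 log(n/k), for all 2k ≤ n ≤ k^{5/4}
    (∀ n k : ℕ, 1 ≤ k → 2 * k ≤ n → n ^ 4 ≤ k ^ 5 →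
      Real.log (iMin n k) ≤ 20 * ((k : ℝ) ^ 2 / n) * Real.log ((n : ℝ) / k)) ∧
    -- explicit upper bounds from majorities of projective planes
    (∀ n m q : ℕ, 1 ≤ m → q.Prime → (2 * m - 1) * (q ^ 2 + q + 1) ≤ n →
      iMin n (m * (q + 1)) ≤ (2 * m - 1).choose m * (q ^ 2 + q + 1) ^ m) ∧
    -- the majority bound, sharp for n = 2k
    (∀ n k : ℕ, 1 ≤ k → 2 * k ≤ n → iMin n k ≤ (2 * k - 1).choose k) ∧
    (∀ k : ℕ, 1 ≤ k → iMin (2 * k) k = (2 * k - 1).choose k) ∧
    -- n = 2k+1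
    (∀ k : ℕ, 1 ≤ k → (2 * k + 1).choose k ≤ iMin (2 * k + 1) k * (k + 2)) ∧
    iMin 7 3 = 7 :=
  ⟨fun _ _ hk h => iMin_spec hk h, fun _ _ hk h => lower_cover hk h, fun _ _ hk h => log_lower hk h,
    fun _ _ hk h hn => log_upper hk h hn, fun _ _ _ hm hq hn => upper_exact hm hq hn,
    fun _ _ hk h => upper_majority hk h, fun _ hk => exact_two_mul hk, fun _ hk => odd_lower hk,
    exact_seven_three⟩

end Pool.Agent.Results.MP_3036ab_co.LogOrder
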